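import Pool.Agent.MP_c1891a_nt.G43.Spec
import Pool.Agent.MP_c1891a_nt.H16.NA
import Pool.Agent.MP_c1891a_nt.H44.Gal

/-
Vanishing sums of roots of unity with complex coefficients.
-/

namespace Pool.Agent.MP_c1891a_nt.G43

open Finset Module H43

theorem mann_half : ¬ IsIntegral ℤ (1 / 2 : ℂ) := by
  intro h
  have e : (1 / 2 : ℂ) = algebraMap ℚ ℂ (1 / 2) := by simp
  rw [e, isIntegral_algebraMap_iff (algebraMap ℚ ℂ).injective] at h
  obtain ⟨y, hy⟩ := IsIntegrallyClosed.isIntegral_iff.1 h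
  have h2 : (2 * y : ℤ) = 1 := by
    have : (2 * y : ℚ) = 1 := by rw [← eq_intCast (algebraMap ℤ ℚ), hy]; norm_num
    exact_mod_cast this
  omega

theorem sMann : SMann := by
  rintro ι I c ⟨i₀, h₀, hc⟩
  obtain ⟨ψ, hψ⟩ := not_forall.1 fun h =>
    hc ((forall_dual_apply_eq_zero_iff (algebraicClosure ℚ ℂ) (c i₀)).1 h)
  rcases sNA sGal ι I (fun i => (((2 * ψ (c i₀))⁻¹ * ψ (c i) : algebraicClosure ℚ ℂ) : ℂ))
    (fun i _ => mem_algebraicClosure_iff.1 (Subtype.property _)) with h | ⟨B, hB⟩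
  · refine absurd (h i₀ h₀) ?_
    rw [mul_inv, inv_mul_cancel_right₀ hψ]
    exact fun h => mann_half (by rw [one_div]; exact h)
  refine ⟨B, fun w hw h0 => hB w hw ?_⟩
  have : ∀ i, ∃ k : algebraicClosure ℚ ℂ, i ∈ I → (k : ℂ) = w i := fun i => by
    by_cases hi : i ∈ I
    · exact ⟨⟨w i, mem_algebraicClosure_iff'.2 (na_int (hw i hi)).1.tower_top⟩, fun _ => rfl⟩
    · exact ⟨0, fun h => absurd h hi⟩
  choose k hk using this
  have e1 : ∑ i ∈ I, k i • c i = 0 :=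
    (sum_congr rfl fun i hi => by rw [← hk i hi, mul_comm]; rfl).trans h0
  have e2 := congrArg (fun x => (((2 * ψ (c i₀))⁻¹ * ψ x : algebraicClosure ℚ ℂ) : ℂ)) e1
  simp only [map_sum, map_smul, map_zero, mul_zero, mul_sum, smul_eq_mul] at e2
  rw [AddSubmonoidClass.coe_finsetSum] at e2
  refine (((sum_congr rfl fun i hi => ?_).trans e2).trans
    (algebraicClosure ℚ ℂ).coe_zero) ▸ isIntegral_zero
  rw [← hk i hi, ← IntermediateField.coe_mul]
  congr 1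
  ring

theorem mann_gen (Λ : Type) [AddCommGroup Λ] [Module.Free ℤ Λ] [Module.Finite ℤ Λ] :
    ∃ x : AddChar Λ (FractionRing (MvPolynomial (Fin (finrank ℤ Λ)) ℂ)), TD x (finrank ℤ Λ) := by
  let b := finBasis ℤ Λ
  obtain ⟨t, h⟩ : ∃ t : Fin (finrank ℤ Λ) → FractionRing (MvPolynomial (Fin (finrank ℤ Λ)) ℂ),
      AlgebraicIndependent ℂ t :=
    ⟨_, (MvPolynomial.algebraicIndependent_X (Fin (finrank ℤ Λ)) ℂ).map'
      (f := IsScalarTower.toAlgHom ℂ _ _) (IsFractionRing.injective _ _)⟩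
  refine ⟨⟨fun l => ∏ i, t i ^ b.repr l i, by simp, fun l l' => ?_⟩, b, ?_⟩
  · rw [← prod_mul_distrib]
    exact prod_congr rfl fun i _ => by
      rw [map_add, Finsupp.add_apply, zpow_add₀ (h.linearIndependent.ne_zero i)]
  · have e : (fun k => ∏ i, t i ^ b.repr (b k) i) = t := funext fun k => by
      rw [prod_eq_single_of_mem k (mem_univ _) fun i _ hi => by
        rw [b.repr_self, Finsupp.single_eq_of_ne hi, zpow_zero]]
      simp
    exact e.symm ▸ h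

open Classical in
theorem mann_cs {Λ F : Type} [AddCommGroup Λ] [Field F] [Algebra ℂ F] (S : Sys Λ)
    (x : AddChar Λ F) (j : S.J) : S.cs x j = ∑ μ ∈ S.I.image S.m,
      algebraMap ℂ F (∑ i ∈ (S.I.filter (S.κ · = j)).filter (S.m · = μ), S.c i) * x μ := by
  rw [Sys.cs, ← sum_fiberwise_of_maps_to (g := S.m) (t := S.I.image S.m)
    fun i hi => mem_image_of_mem _ (mem_filter.1 hi).1]
  refine sum_congr rfl fun μ _ => ?_
  rw [map_sum, sum_mul]
  exact sum_congr rfl fun i hi => by rw [(mem_filter.1 hi).2]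

theorem sNz (h : SMann) : SNz := by
  classical
  intro Λ _ _ _ S hS
  obtain ⟨x, hx⟩ := mann_gen Λ
  obtain ⟨j, hj⟩ := not_forall.1 fun h0 => hS _ x h0 hx
  obtain ⟨i, hi, -⟩ := exists_ne_zero_of_sum_ne_zero hj
  rw [mann_cs] at hj
  obtain ⟨μ₀, h₀, h₁⟩ := exists_ne_zero_of_sum_ne_zero hj
  obtain ⟨B, hB⟩ := h Λ _ (fun μ => ∑ i ∈ (S.I.filter (S.κ · = j)).filter (S.m · = μ), S.c i)
    ⟨μ₀, h₀, mt (map_eq_zero _).2 (left_ne_zero_of_mul h₁)⟩
  refine ⟨((S.I.image S.m ×ˢ S.I.image S.m) ×ˢ range (B + 1)).image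
    fun p => p.2 • (p.1.1 - p.1.2), fun χ hχ hT h0 => ?_⟩
  obtain ⟨n, hn, e⟩ := isOfFinOrder_iff_pow_eq_one.1 hχ
  have t : ∀ μ, Tor (χ μ) := fun μ => ⟨n, hn, by rw [← AddChar.pow_apply, e, AddChar.one_apply]⟩
  have z := norm_eq_zero.1 ((sum_eq_zero_iff_of_nonneg fun _ _ => norm_nonneg _).1 h0 j
    ((mem_filter.1 hi).2 ▸ by simpa using ⟨i, (mem_filter.1 hi).1, rfl⟩))
  rw [mann_cs] at z
  obtain ⟨μ, hμ, ν, hν, ne, s, s0, sB, es⟩ := hB χ (fun μ _ => t μ) (by simpa using z)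
  refine hT (s • (μ - ν)) (mem_image.2 ⟨((μ, ν), s), mem_product.2 ⟨mem_product.2 ⟨by simpa using hμ,
    by simpa using hν⟩, mem_range.2 (by omega)⟩, rfl⟩) ?_ ?_
  · rw [← natCast_zsmul]
    exact smul_ne_zero (by omega) (sub_ne_zero.2 ne)
  · rw [AddChar.map_nsmul_eq_pow, AddChar.map_sub_eq_div, div_pow, es,
      div_self (pow_ne_zero _ (na_int (t ν)).2.2)]

end Pool.Agent.MP_c1891a_nt.G43
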